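import Pool.Agent.T6.H17.PB.TYP

set_option autoImplicit false

open MvPolynomial H960VB H938TB Pool.Agent.W615 Pool.Agent.W467.FO

namespace Pool.Agent.T6.H17.PB

variable {n : ℕ}

/-- generalised eigensections under an operator commuting up to a constant -/
theorem ge_conj {V : Type*} [AddCommGroup V] [Module ℂ V] (f g : V →ₗ[ℂ] V) (c α : ℂ)
    (hfg : ∀ v, f (g v) = c • g (f v)) : ∀ (k : ℕ) (v : V), ((f - α • 1) ^ k) v = 0 →
    ((f - (c * α) • 1) ^ k) (g v) = 0 := by
  have key : ∀ (k : ℕ) (v : V), ((f - (c * α) • 1) ^ k) (g v) = c ^ k • g (((f - α • 1) ^ k) v) := by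
    intro k
    induction k with
    | zero => intro v; simp
    | succ k ih =>
      intro v
      have h1 : (f - (c * α) • 1) (g v) = c • g ((f - α • 1) v) := by
        simp only [LinearMap.sub_apply, LinearMap.smul_apply, Module.End.one_apply, map_sub,
          map_smul, hfg]
        module
      rw [pow_succ, Module.End.mul_apply, h1, map_smul, ih, pow_succ, pow_succ,
        Module.End.mul_apply, smul_smul, mul_comm c]
  intro k v hv
  rw [key, hv, map_zero, smul_zero]

theorem com : StmCOM := by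
  intro n hn E W ζ hζ O u hu hc i j d s hs
  by_cases hij : i = j
  · rw [hij]
  obtain ⟨c, hc'⟩ := hc i j
  -- a point of the two hyperplanes
  obtain ⟨x, hx0, hxi, hxj⟩ : ∃ x : Fin (n + 1) → ℂ, x ≠ 0 ∧ x i = 0 ∧ x j = 0 := by
    obtain ⟨l, hl⟩ : ∃ l : Fin (n + 1), l ∉ ({i, j} : Finset (Fin (n + 1))) := by
      by_contra hcon
      push Not at hcon
      have h1 : (Finset.univ : Finset (Fin (n + 1))) ⊆ {i, j} := fun l _ => hcon l
      have h2 := Finset.card_le_card h1
      have h3 : ({i, j} : Finset (Fin (n + 1))).card ≤ 2 := Finset.card_le_two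
      rw [Finset.card_univ, Fintype.card_fin] at h2
      omega
    refine ⟨Pi.single l 1, fun h => ?_, ?_, ?_⟩
    · have := congrFun h l
      simp at this
    · rw [Pi.single_eq_of_ne]
      rintro rfl
      exact hl (by simp)
    · rw [Pi.single_eq_of_ne]
      rintro rfl
      exact hl (by simp)
  have hTj : hT n ζ j x = x := by
    funext l
    rw [hT_apply]
    split_ifs with h
    · rw [h, hxj, mul_zero]
    · rw [one_mul]
  -- generalised eigensections independent at `x`
  obtain ⟨d0, hd0⟩ := (O i).exists_ge W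
  obtain ⟨α, β, G, G', hG, hG', hne⟩ := hd0 x hx0
  have hdvd : ∀ {e : ℤ} (s t : Vec E.a n), Sec E e s → (∃ b, Sec E b t) →
      eval x (W.wd s t) ≠ 0 → ∃ r, ¬ X i ∣ s r := by
    intro e s t hs ht h
    by_contra hcon
    push Not at hcon
    choose q hq using hcon
    apply h
    obtain ⟨b, ht⟩ := ht
    have h1 : ∀ r, (evv s x) r = 0 := by
      intro r
      show eval x (s r) = 0
      rw [hq r, map_mul, eval_X, hxi, zero_mul]
    by_contra h2
    have h3 := (W.ind x hx0 s t hs.ker ht.ker).1 h2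
    have h4 := h3.ne_zero 0
    apply h4
    funext r
    exact h1 r
  have hα : α = u i := (hu i).typ d0 α G hG (hdvd G.1 G'.1 G.2 ⟨d0, G'.2⟩ hne)
  have hju : u j * u j ≠ 0 := mul_ne_zero (hu j).ne (hu j).ne
  have hne2 : eval x (W.wd ((O j).D G.1) ((O j).D G'.1)) ≠ 0 := by
    rw [(hu j).det _ _ _ _ G.2 G'.2, map_mul, eval_C, eval_lsub, hTj]
    exact mul_ne_zero hju hne
  obtain ⟨k, hk⟩ := hG
  have hGj : (O i).GE d0 (c * α) ((O j).lin d0 G) := by
    refine ⟨k, ge_conj ((O i).lin d0) ((O j).lin d0) c α (fun v => ?_) k G hk⟩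
    apply Subtype.ext
    exact hc' d0 v.1 v.2
  have hcα : c * α = u i := (hu i).typ d0 _ _ hGj
    (hdvd _ _ ((O j).sec _ _ G.2) ⟨d0, (O j).sec _ _ G'.2⟩ hne2)
  have hc1 : c = 1 := by
    rw [hα] at hcα
    exact mul_right_cancel₀ (hu i).ne (hcα.trans (one_mul _).symm)
  rw [hc' d s hs, hc1, one_smul]

end Pool.Agent.T6.H17.PB
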