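import Pool.Agent.H960R2.VB.Defs

/-! Project PB (`MP_745d3a_ag`): the module statements which need only Mathlib and `HomZ`. -/

set_option autoImplicit false

open MvPolynomial H960VB

namespace Pool.Agent.T6.H17.PB

/-- the Plücker matrix of a family `p i j` -/
noncomputable def plM {R : Type*} [CommRing R] (N : ℕ) (p : Fin N → Fin N → R) :
    Matrix (Fin (Fintype.card (Fin N × Fin N × Fin N))) (Fin N) R := fun r l =>
  (if l = ((Fintype.equivFin (Fin N × Fin N × Fin N)).symm r).1 then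
      p ((Fintype.equivFin (Fin N × Fin N × Fin N)).symm r).2.1
        ((Fintype.equivFin (Fin N × Fin N × Fin N)).symm r).2.2 else 0) -
    (if l = ((Fintype.equivFin (Fin N × Fin N × Fin N)).symm r).2.1 then
      p ((Fintype.equivFin (Fin N × Fin N × Fin N)).symm r).1
        ((Fintype.equivFin (Fin N × Fin N × Fin N)).symm r).2.2 else 0) +
    (if l = ((Fintype.equivFin (Fin N × Fin N × Fin N)).symm r).2.2 then
      p ((Fintype.equivFin (Fin N × Fin N × Fin N)).symm r).1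
        ((Fintype.equivFin (Fin N × Fin N × Fin N)).symm r).2.1 else 0)

/-- LA: the kernel of the Plücker matrix has dimension two. -/
def StmLA : Prop := ∀ (N : ℕ) (p : Fin N → Fin N → ℂ), (∀ i j, p i j = - p j i) →
  (∀ i j k l, p i j * p k l - p i k * p j l + p i l * p j k = 0) → (∃ i j, p i j ≠ 0) →
  Module.finrank ℂ (LinearMap.ker (Matrix.mulVecLin (plM N p))) = 2 ∧
  ∀ v : Fin N → ℂ, v ∈ LinearMap.ker (Matrix.mulVecLin (plM N p)) ↔
    ∀ i j k, v i * p j k - v j * p i k + v k * p i j = 0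

/-- CR: Cramer's rule for polynomials without common zeros. -/
def StmCR : Prop := ∀ (n : ℕ), 1 ≤ n → ∀ (ι : Type) (_ : Finite ι)
  (p b : ι → MvPolynomial (Fin (n + 1)) ℂ),
  (∀ x : Fin (n + 1) → ℂ, x ≠ 0 → ∃ i, eval x (p i) ≠ 0) →
  (∀ i j, p i * b j = p j * b i) → ∃ s, ∀ i, b i = p i * s

/-- the substitution `x_i ↦ ζ x_i` -/
noncomputable def sc (n : ℕ) (ζ : ℂ) (i : Fin (n + 1)) :
    MvPolynomial (Fin (n + 1)) ℂ →ₐ[ℂ] MvPolynomial (Fin (n + 1)) ℂ :=
  aeval (fun j => C (if j = i then ζ else 1) * X j)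

/-- EXP: generalised invariants of the substitutions `x_i ↦ ζ x_i` are polynomials in
`x_0^M, …, x_n^M`; and simple facts on `expand`. -/
def StmEXP : Prop := ∀ (n M : ℕ) (ζ : ℂ), 0 < M → IsPrimitiveRoot ζ M →
  (∀ (p : MvPolynomial (Fin (n + 1)) ℂ),
    (∀ i, ∃ K : ℕ, (((sc n ζ i).toLinearMap - 1) ^ K) p = 0) → ∃ P, expand M P = p) ∧
  (∀ (P : MvPolynomial (Fin (n + 1)) ℂ) (d : ℤ), HomZ P d → HomZ (expand M P) (M * d)) ∧
  (∀ (P : MvPolynomial (Fin (n + 1)) ℂ) (d : ℤ), P ≠ 0 → HomZ (expand M P) d →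
    ∃ e : ℤ, d = M * e ∧ HomZ P e) ∧
  (∀ (P : MvPolynomial (Fin (n + 1)) ℂ) (x : Fin (n + 1) → ℂ),
    eval x (expand M P) = eval (fun i => x i ^ M) P) ∧
  (∀ y : Fin (n + 1) → ℂ, y ≠ 0 → ∃ x : Fin (n + 1) → ℂ, x ≠ 0 ∧ (fun i => x i ^ M) = y)

end Pool.Agent.T6.H17.PB
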