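import Pool.Agent.H960R2.VB.TaskB
import Pool.Agent.T6.H17.PB.DefsM

/-! Module CR of project PB (helper54): Cramer's rule for polynomials without common zeros. -/

set_option autoImplicit false

open MvPolynomial H960VB

namespace Pool.Agent.T6.H17.PB

/-- CR: Cramer's rule for polynomials without common zeros. -/
theorem cr : StmCR := by
  intro n hn ι _ p b hp hpb
  obtain ⟨i0, hi0⟩ := hp (fun _ => 1) (fun h => by simpa using congrFun h 0)
  have hne : p i0 ≠ 0 := by
    intro h
    rw [h, map_zero] at hi0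
    exact hi0 rfl
  have hd : p i0 ∣ b i0 := by
    refine dvd_of_primes hne fun π hπ _ => ?_
    obtain ⟨x, hx, hx0⟩ := no_isolated_prime (by omega) π hπ
    obtain ⟨i, hi⟩ := hp x hx
    refine ⟨p i, b i, hpb i0 i, ?_⟩
    rintro ⟨q, hq⟩
    apply hi
    rw [hq, map_mul, hx0, zero_mul]
  obtain ⟨s, hs⟩ := hd
  refine ⟨s, fun i => mul_left_cancel₀ hne ?_⟩
  rw [hpb i0 i, hs]
  ring

end Pool.Agent.T6.H17.PB
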