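import Pool.Agent.T6.H17.PB.COM

set_option autoImplicit false

open MvPolynomial H960VB H938TB Pool.Agent.W615 Pool.Agent.W467.FO

namespace Pool.Agent.T6.H17.PB

variable {n : ℕ} {E : Bundle2 n} {W : Wedge (triv E)} {ζ : ℂ}

/-- combinations of semi-invariant sections -/
inductive Rep (S : Sys E W ζ) (d : ℤ) : Vec E.a n → Prop
  | zero : Rep S d 0
  | add (s t : Vec E.a n) : Rep S d s → Rep S d t → Rep S d (s + t)
  | gen (e : ℤ) (p : MvPolynomial (Fin (n + 1)) ℂ) (v : S0 E e) : HomZ p (d - e) → InV S e v →
      Rep S d (fun q => p * v.1 q)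

theorem homZ_X_mul {i : Fin (n + 1)} {p : MvPolynomial (Fin (n + 1)) ℂ} {D : ℤ} (h : HomZ p D) :
    HomZ (X i * p) (D + 1) := by
  rcases h with h | ⟨k, hk, h⟩
  · left; rw [h, mul_zero]
  · right
    refine ⟨1 + k, by push_cast; omega, (isHomogeneous_X ℂ i).mul h⟩

theorem homZ_of_X_mul {i : Fin (n + 1)} {q : MvPolynomial (Fin (n + 1)) ℂ} {D : ℤ}
    (h : HomZ (X i * q) D) : HomZ q (D - 1) := by
  by_cases hq : q = 0
  · left; exact hq
  rcases h with h | ⟨k, hk, h⟩
  · exact absurd ((mul_eq_zero.1 h).resolve_left (X_ne_zero i)) hq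
  right
  have key : ∀ m : Fin (n + 1) →₀ ℕ, coeff m q ≠ 0 → m.degree + 1 = k := by
    intro m hm
    have h1 : coeff (Finsupp.single i 1 + m) (X i * q) ≠ 0 := by rw [coeff_X_mul]; exact hm
    have h2 := h h1
    have h3 : (Finsupp.single i 1 + m).degree = 1 + m.degree := by
      rw [map_add, Finsupp.degree_single]
    have h4 : (Finsupp.single i 1 + m).degree = k := by
      rw [Finsupp.degree_eq_weight_one]; exact h2
    omega
  obtain ⟨m0, hm0⟩ := ne_zero_iff.1 hq
  have hk0 := key m0 hm0
  refine ⟨k - 1, by omega, ?_⟩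
  intro m hm
  have h1 := key m hm
  have h2 : (Finsupp.weight 1) m = m.degree := by rw [Finsupp.degree_eq_weight_one]; rfl
  rw [h2]
  omega

theorem Rep.mulX {S : Sys E W ζ} {d : ℤ} (i : Fin (n + 1)) {s : Vec E.a n} (h : Rep S (d - 1) s) :
    Rep S d (fun q => X i * s q) := by
  induction h with
  | zero =>
    have : (fun q => X i * (0 : Vec E.a n) q) = 0 := by funext q; simp
    rw [this]; exact Rep.zero
  | add s t _ _ hs ht =>
    have : (fun q => X i * (s + t) q) = (fun q => X i * s q) + (fun q => X i * t q) := by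
      funext q; simp [mul_add]
    rw [this]; exact Rep.add _ _ hs ht
  | gen e p v hp hv =>
    have : (fun q => X i * (fun q => p * v.1 q) q) = (fun q => (X i * p) * v.1 q) := by
      funext q; simp [mul_assoc]
    rw [this]
    refine Rep.gen e _ v ?_ hv
    have := homZ_X_mul (i := i) hp
    convert this using 1
    ring

theorem rep (S : Sys E W ζ) : ∀ (m : ℕ) (B0 : ℤ), (∀ i, E.β i ≤ B0) → ∀ d : ℤ, d + B0 < m →
    ∀ s : S0 E d, Rep S d s.1 := by
  intro m B0 hB
  induction m with
  | zero =>
    intro d hd s
    have : s.1 = 0 := by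
      funext i
      rcases (s.2 : Sec E d s.1).homZ i with h | ⟨k, hk, -⟩
      · exact h
      · exfalso
        have := hB i
        push_cast at hd
        omega
    rw [this]
    exact Rep.zero
  | succ m ih =>
    intro d hd s
    have htop := Module.End.iSup_iInf_maxGenEigenspace_eq_top_of_iSup_maxGenEigenspace_eq_top_of_commute
      (fun i => (S.O i).lin d) (fun i j _ => by
        apply LinearMap.ext
        intro v
        apply Subtype.ext
        exact S.comm i j d v.1 v.2) (fun i => Module.End.iSup_maxGenEigenspace_eq_top _)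
    have hs : s ∈ ⨆ χ : Fin (n + 1) → ℂ, ⨅ i, Module.End.maxGenEigenspace ((S.O i).lin d) (χ i) := by
      rw [htop]; trivial
    refine Submodule.iSup_induction _ (motive := fun s => Rep S d (s : S0 E d).1) hs ?_ ?_ ?_
    · intro χ s hs
      rw [Submodule.mem_iInf] at hs
      have hge : ∀ i, (S.O i).GE d (χ i) s := by
        intro i
        have := hs i
        rw [Module.End.mem_maxGenEigenspace] at this
        exact this
      by_cases hall : ∀ i, χ i = S.u i
      · have : s.1 = fun q => (1 : MvPolynomial (Fin (n + 1)) ℂ) * s.1 q := by funext q; rw [one_mul]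
        rw [this]
        refine Rep.gen d 1 s (Or.inr ⟨0, by simp, isHomogeneous_one _ _⟩) ?_
        intro i
        rw [← hall i]
        exact hge i
      · push Not at hall
        obtain ⟨i, hi⟩ := hall
        have hdiv : ∀ r, X i ∣ s.1 r := by
          by_contra hcon
          push Not at hcon
          exact hi ((S.typ i).typ d (χ i) s (hge i) hcon)
        choose q hq using hdiv
        have hqs : Sec E (d - 1) q := by
          refine ⟨fun r => ?_, fun k => ?_⟩
          · have h1 : HomZ (X i * q r) (E.β r + d) := by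
              rw [← hq r]; exact (s.2 : Sec E d s.1).homZ r
            have h2 := wh_triv (homZ_of_X_mul h1)
            convert h2 using 1
            simp [triv]
            ring
          · have h1 := (s.2 : Sec E d s.1).ker k
            have h2 : X i * ∑ r, E.B k r * q r = 0 := by
              rw [← h1, Finset.mul_sum]
              refine Finset.sum_congr rfl fun r _ => ?_
              rw [hq r]; ring
            exact (mul_eq_zero.1 h2).resolve_left (X_ne_zero i)
        have h3 := ih (d - 1) (by push_cast at hd; omega) ⟨q, hqs⟩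
        have h4 : s.1 = fun r => X i * q r := funext hq
        rw [h4]
        exact h3.mulX i
    · exact Rep.zero
    · intro s t hs ht
      exact Rep.add _ _ hs ht

theorem exists_rep (S : Sys E W ζ) (d : ℤ) (s : S0 E d) : Rep S d s.1 := by
  obtain ⟨B0, hB⟩ : ∃ B0 : ℤ, ∀ i, E.β i ≤ B0 := by
    obtain ⟨b, hb⟩ := (Set.finite_range E.β).bddAbove
    exact ⟨b, fun i => hb ⟨i, rfl⟩⟩
  exact rep S (d + B0 + 1).toNat B0 hB d (by omega) s

end Pool.Agent.T6.H17.PB
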