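import Pool.Agent.T6.H17.PB.DEC

set_option autoImplicit false

open MvPolynomial H960VB H938TB Pool.Agent.W615 Pool.Agent.W467.FO

namespace Pool.Agent.T6.H17.PB

variable {n : ℕ} {E : Bundle2 n} {W : Wedge (triv E)} {ζ : ℂ}

/-- the composition of the maps `hT` over a list -/
noncomputable def hL (n : ℕ) (ζ : ℂ) : List (Fin (n + 1)) →
    ((Fin (n + 1) → ℂ) →ₗ[ℂ] (Fin (n + 1) → ℂ))
  | [] => LinearMap.id
  | i :: l => hL n ζ l ∘ₗ hT n ζ i

theorem hL_apply (l : List (Fin (n + 1))) : ∀ (x : Fin (n + 1) → ℂ) (j : Fin (n + 1)),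
    hL n ζ l x j = ζ ^ (l.count j) * x j := by
  induction l with
  | nil => intro x j; simp [hL]
  | cons i l ih =>
    intro x j
    show hL n ζ l (hT n ζ i x) j = _
    rw [ih, hT_apply, List.count_cons]
    by_cases h : j = i
    · subst h
      simp [pow_succ]
      ring
    · have h' : ¬ (i == j) = true := by
        simp only [beq_iff_eq]
        exact fun hh => h hh.symm
      rw [if_neg h, if_neg h', add_zero, one_mul]

theorem lsub_id (p : MvPolynomial (Fin (n + 1)) ℂ) :
    lsub (LinearMap.id : (Fin (n + 1) → ℂ) →ₗ[ℂ] (Fin (n + 1) → ℂ)) p = p := by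
  apply MvPolynomial.funext
  intro x
  rw [eval_lsub]
  rfl

/-- the composition of the lifts over a list -/
noncomputable def gL (S : Sys E W ζ) : ∀ l : List (Fin (n + 1)), GOp E (hL n ζ l)
  | [] =>
    { D := fun s => s
      sec := fun _ _ h => h
      add := fun _ _ _ _ _ => rfl
      mul := fun _ _ p G _ _ => by
        funext i
        show p * G i = lsub LinearMap.id p * G i
        rw [lsub_id]
      inj := fun _ _ _ h => h }
  | i :: l =>
    { D := fun s => (S.O i).D ((gL S l).D s)
      sec := fun d G h => (S.O i).sec d _ ((gL S l).sec d G h)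
      add := fun d G G' h h' => by
        show (S.O i).D ((gL S l).D (fun i => G i + G' i)) = _
        rw [(gL S l).add d G G' h h', (S.O i).add d _ _ ((gL S l).sec d G h)
          ((gL S l).sec d G' h')]
      mul := fun d e p G h hp => by
        show (S.O i).D ((gL S l).D (fun i => p * G i)) = _
        rw [(gL S l).mul d e p G h hp, (S.O i).mul d e _ _ ((gL S l).sec d G h)
          (homZ_lsub _ hp), lsub_comp]
        rfl
      inj := fun d G h h0 => by
        have h1 := (S.O i).inj d _ ((gL S l).sec d G h) h0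
        exact (gL S l).inj d G h h1 }

theorem gL_comm (S : Sys E W ζ) (i : Fin (n + 1)) (l : List (Fin (n + 1))) (d : ℤ)
    (s : Vec E.a n) (hs : Sec E d s) :
    (S.O i).D ((gL S l).D s) = (gL S l).D ((S.O i).D s) := by
  induction l with
  | nil => rfl
  | cons j l ih =>
    show (S.O i).D ((S.O j).D ((gL S l).D s)) = (S.O j).D ((gL S l).D ((S.O i).D s))
    rw [S.comm i j d _ ((gL S l).sec d s hs), ih]

theorem gL_ge (S : Sys E W ζ) {e : ℤ} {v : S0 E e} (hv : InV S e v) (l : List (Fin (n + 1))) :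
    (gL S l).GE e ((l.map S.u).prod) v := by
  induction l with
  | nil =>
    refine ⟨1, ?_⟩
    rw [pow_one]
    apply Subtype.ext
    show (v : Vec E.a n) - ((1 : ℂ) • (v : Vec E.a n)) = 0
    rw [one_smul, sub_self]
  | cons i l ih =>
    have hc : Commute ((S.O i).lin e : Module.End ℂ (S0 E e)) ((gL S l).lin e) := by
      apply LinearMap.ext
      intro w
      apply Subtype.ext
      exact gL_comm S i l e w.1 w.2
    have hlin : (gL S (i :: l)).lin e = (S.O i).lin e * (gL S l).lin e := rfl
    unfold GOp.GE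
    rw [hlin, List.map_cons, List.prod_cons]
    obtain ⟨a, ha⟩ := hv i
    obtain ⟨b, hb⟩ := ih
    exact ⟨a + b, Pool.Agent.W467.CO.ge_comp hc _ _ (a + b) a b v le_rfl ha hb⟩

theorem deg : StmDEG := by
  intro n hn E hE W ζ M hM hζ S e e' v v' hv hv' hv0 hv0'
  have hζ0 : ζ ≠ 0 := hζ.ne_zero (by omega)
  set l := List.finRange (n + 1) with hl
  have hT : hL n ζ l = ζ • LinearMap.id := by
    apply LinearMap.ext
    intro x
    funext j
    rw [hL_apply, List.count_eq_one_of_mem (List.nodup_finRange _) (List.mem_finRange j), pow_one]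
    rfl
  have hinj : Function.Injective (hL n ζ l) := by
    rw [hT]
    intro x y h
    have h1 : ζ • x = ζ • y := h
    exact smul_right_injective _ hζ0 h1
  obtain ⟨κ, hκ0, hκ⟩ := (gL S l).det W (by omega) hinj
  have hid : Function.Injective (LinearMap.id : (Fin (n + 1) → ℂ) →ₗ[ℂ] (Fin (n + 1) → ℂ)) :=
    Function.injective_id
  have hE' : ¬ (E.pull LinearMap.id hid).Splits := fun h =>
    hE (Bundle2.splits_of_pull 0 n n (by omega) (by omega) E _ hid h)
  obtain ⟨u, hu, hu'⟩ := (gL S l).typeV W hκ0 hκ (by omega) LinearMap.id hid hζ0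
    (by rw [hT]; rfl) hE'
  have key : ∀ (e : ℤ) (v : S0 E e), InV S e v → v ≠ 0 → (l.map S.u).prod = u * ζ ^ e := by
    intro e v hv hv0
    refine hu' e _ v (gL_ge S hv l) ?_
    by_contra hcon
    push Not at hcon
    apply hv0
    apply Subtype.ext
    funext r
    have h1 := hcon r
    show v.1 r = 0
    have h2 : rs LinearMap.id v.1 r = lsub LinearMap.id (v.1 r) := rfl
    rw [h2, lsub_id] at h1
    exact h1
  have h1 := key e v hv hv0
  have h2 := key e' v' hv' hv0'
  have hprod : (l.map S.u).prod ≠ 0 := by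
    apply List.prod_ne_zero
    intro h
    obtain ⟨i, -, hi⟩ := List.mem_map.1 h
    exact (S.typ i).ne hi
  have hu0 : u ≠ 0 := by
    rintro rfl
    rw [zero_mul] at h1
    exact hprod h1
  have h3 : ζ ^ e = ζ ^ e' := mul_left_cancel₀ hu0 (h1.symm.trans h2)
  have h4 : ζ ^ (e - e') = 1 := by
    rw [zpow_sub₀ hζ0, h3, div_self (zpow_ne_zero _ hζ0)]
  exact (hζ.zpow_eq_one_iff_dvd _).1 h4

end Pool.Agent.T6.H17.PB
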