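import Pool.Agent.W467.CO.B
import Pool.Agent.W467.LO.E
import Pool.Agent.Results.MP_745d3a_ag.AbelianSymmetry
import Pool.Agent.T6.H17.PB.DefsM

/-!
# Project PB (`MP_745d3a_ag`): rank two bundles with all diagonal symmetries of order `M`
are pull-backs under the power map.  Definitions and module statements.
-/

set_option autoImplicit false

open MvPolynomial H960VB H938TB Pool.Agent.W615 Pool.Agent.W467.FO

namespace Pool.Agent.T6.H17.PB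

/-- multiplication of the coordinate `i` by `ζ` -/
noncomputable def hT (n : ℕ) (ζ : ℂ) (i : Fin (n + 1)) :
    (Fin (n + 1) → ℂ) →ₗ[ℂ] (Fin (n + 1) → ℂ) :=
  LinearMap.pi fun j => (if j = i then ζ else 1) • LinearMap.proj j

variable {n : ℕ}

/-- `u` is the type of the lift `O` of the multiplication of the coordinate `i` by `ζ`. -/
structure IsType {E : Bundle2 n} (W : Wedge (triv E)) {ζ : ℂ} {i : Fin (n + 1)}
    (O : GOp E (hT n ζ i)) (u : ℂ) : Prop where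
  ne : u ≠ 0
  det : ∀ (a b : ℤ) (s t : Vec E.a n), Sec E a s → Sec E b t →
    W.wd (O.D s) (O.D t) = C (u * u) * lsub (hT n ζ i) (W.wd s t)
  typ : ∀ (d : ℤ) (α : ℂ) (s : S0 E d), O.GE d α s → (∃ r, ¬ X i ∣ s.1 r) → α = u

/-- TYP: the type exists. -/
def StmTYP : Prop := ∀ (n : ℕ), 3 ≤ n → ∀ (E : Bundle2 n), ¬ E.Splits → ∀ (W : Wedge (triv E))
  (ζ : ℂ), ζ ≠ 0 → ∀ (i : Fin (n + 1)) (O : GOp E (hT n ζ i)), ∃ u : ℂ, IsType W O u

/-- commuting lifts of the multiplications of all coordinates by `ζ`, with their types -/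
structure Sys (E : Bundle2 n) (W : Wedge (triv E)) (ζ : ℂ) where
  O : ∀ i : Fin (n + 1), GOp E (hT n ζ i)
  u : Fin (n + 1) → ℂ
  typ : ∀ i, IsType W (O i) (u i)
  comm : ∀ i j (d : ℤ) (s : Vec E.a n), Sec E d s → (O i).D ((O j).D s) = (O j).D ((O i).D s)

/-- COM: lifts which commute up to constants commute. -/
def StmCOM : Prop := ∀ (n : ℕ), 3 ≤ n → ∀ (E : Bundle2 n) (W : Wedge (triv E)) (ζ : ℂ), ζ ≠ 0 →
  ∀ (O : ∀ i : Fin (n + 1), GOp E (hT n ζ i)) (u : Fin (n + 1) → ℂ),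
  (∀ i, IsType W (O i) (u i)) →
  (∀ i j, ∃ c : ℂ, ∀ (d : ℤ) (s : Vec E.a n), Sec E d s →
    (O i).D ((O j).D s) = c • (O j).D ((O i).D s)) →
  ∀ i j (d : ℤ) (s : Vec E.a n), Sec E d s → (O i).D ((O j).D s) = (O j).D ((O i).D s)

/-- the semi-invariant sections of `E(e)` of the types `u i` -/
def InV {E : Bundle2 n} {W : Wedge (triv E)} {ζ : ℂ} (S : Sys E W ζ) (e : ℤ) (v : S0 E e) : Prop :=
  ∀ i, (S.O i).GE e (S.u i) v

/-- DEC: every section is a combination of the semi-invariant ones. -/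
def StmDEC : Prop := ∀ (n : ℕ), 3 ≤ n → ∀ (E : Bundle2 n) (W : Wedge (triv E)) (ζ : ℂ), ζ ≠ 0 →
  ∀ (S : Sys E W ζ) (d : ℤ) (s : S0 E d), ∃ (r : ℕ) (e : Fin r → ℤ)
    (p : Fin r → MvPolynomial (Fin (n + 1)) ℂ) (v : ∀ t, S0 E (e t)),
    (∀ t, HomZ (p t) (d - e t)) ∧ (∀ t, InV S (e t) (v t)) ∧
    s.1 = fun q => ∑ t, p t * (v t).1 q

/-- DEG: the degrees of the semi-invariant sections are congruent modulo `M`. -/
def StmDEG : Prop := ∀ (n : ℕ), 3 ≤ n → ∀ (E : Bundle2 n), ¬ E.Splits → ∀ (W : Wedge (triv E))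
  (ζ : ℂ) (M : ℕ), 0 < M → IsPrimitiveRoot ζ M → ∀ (S : Sys E W ζ) (e e' : ℤ) (v : S0 E e)
  (v' : S0 E e'), InV S e v → InV S e' v' → v ≠ 0 → v' ≠ 0 → (M : ℤ) ∣ e - e'

/-- GEN: semi-invariant sections of one degree generate the bundle. -/
def StmGEN : Prop := ∀ (n : ℕ), 3 ≤ n → ∀ (E : Bundle2 n), ¬ E.Splits → ∀ (W : Wedge (triv E))
  (ζ : ℂ) (M : ℕ), 0 < M → IsPrimitiveRoot ζ M → ∀ (S : Sys E W ζ),
  ∃ (D : ℤ) (N : ℕ) (v : Fin N → S0 E D), (∀ t, InV S D (v t)) ∧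
    ∀ x : Fin (n + 1) → ℂ, x ≠ 0 → ∃ a b, eval x (W.wd (v a).1 (v b).1) ≠ 0

/-- the bundle `f^* E` for the power map `f = (x_0^M : … : x_n^M)` -/
def IsPowPull (M : ℕ) (E' F : Bundle2 n) : Prop :=
  ∃ (ha : F.a = E'.a) (hc : F.c = E'.c), (∀ i, F.β i = M * E'.β (Fin.cast ha i)) ∧
    (∀ k, F.γ k = M * E'.γ (Fin.cast hc k)) ∧
    ∀ k i, F.B k i = expand M (E'.B (Fin.cast hc k) (Fin.cast ha i))

/-- `E ≅ F(k)` in terms of sections -/
def IsoTwist (E F : Bundle2 n) (k : ℤ) : Prop :=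
  ∃ φ : Vec E.a n → Vec F.a n,
    (∀ d G, E.IsSection d G → F.IsSection (d + k) (φ G)) ∧
    (∀ d G G', E.IsSection d G → E.IsSection d G' → φ (G + G') = φ G + φ G') ∧
    (∀ d e (p : MvPolynomial (Fin (n + 1)) ℂ) G, E.IsSection d G → HomZ p e →
      φ (p • G) = p • φ G) ∧
    (∀ d G, E.IsSection d G → φ G = 0 → G = 0) ∧
    (∀ d H, F.IsSection (d + k) H → ∃ G, E.IsSection d G ∧ φ G = H)

/-- ISO: the bundle and the isomorphism. -/
def StmISO : Prop := ∀ (n : ℕ), 3 ≤ n → ∀ (E : Bundle2 n), ¬ E.Splits → ∀ (W : Wedge (triv E))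
  (M : ℕ), 0 < M → ∀ (D : ℤ) (N : ℕ) (v : Fin N → Vec E.a n), (∀ t, Sec E D (v t)) →
  (∀ x : Fin (n + 1) → ℂ, x ≠ 0 → ∃ a b, eval x (W.wd (v a) (v b)) ≠ 0) →
  ∀ (P : Fin N → Fin N → MvPolynomial (Fin (n + 1)) ℂ) (g : ℤ),
  (∀ a b, expand M (P a b) = W.wd (v a) (v b)) → (∀ a b, HomZ (P a b) g) →
  ∃ (E' F : Bundle2 n) (k : ℤ), ¬ E'.Splits ∧ IsPowPull M E' F ∧ IsoTwist E F k

end Pool.Agent.T6.H17.PB
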