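import Pool.Agent.T6.H17.PB.DefsM

/-! Project PB: module EXP. -/

set_option autoImplicit false

open MvPolynomial H960VB

namespace Pool.Agent.T6.H17.PB.EXPM

theorem sc_monomial (n : ℕ) (ζ : ℂ) (i : Fin (n + 1)) (b : Fin (n + 1) →₀ ℕ) (c : ℂ) :
    sc n ζ i (monomial b c) = monomial b (ζ ^ (b i) * c) := by
  unfold sc
  rw [aeval_monomial, monomial_eq, Finsupp.prod_fintype _ _ (by simp), Finsupp.prod_fintype _ _ (by simp)]
  simp only [mul_pow, Finset.prod_mul_distrib]
  have h : ∏ x : Fin (n + 1), (C (if x = i then ζ else 1) : MvPolynomial (Fin (n + 1)) ℂ) ^ b x =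
      C (ζ ^ b i) := by
    rw [Finset.prod_eq_single i]
    · simp
    · intro j _ hj
      simp [hj]
    · intro h; exact absurd (Finset.mem_univ _) h
  rw [h, algebraMap_eq, C_mul]
  ring

theorem coeff_sc (n : ℕ) (ζ : ℂ) (i : Fin (n + 1)) (q : MvPolynomial (Fin (n + 1)) ℂ)
    (a : Fin (n + 1) →₀ ℕ) : coeff a (sc n ζ i q) = ζ ^ (a i) * coeff a q := by
  classical
  induction q using induction_on' with
  | monomial b c =>
    rw [sc_monomial, coeff_monomial, coeff_monomial]
    split_ifs with h
    · rw [h]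
    · rw [mul_zero]
  | add p q hp hq => rw [map_add, coeff_add, coeff_add, hp, hq, mul_add]

theorem coeff_pow (n : ℕ) (ζ : ℂ) (i : Fin (n + 1)) (K : ℕ) (q : MvPolynomial (Fin (n + 1)) ℂ)
    (a : Fin (n + 1) →₀ ℕ) :
    coeff a ((((sc n ζ i).toLinearMap - 1) ^ K) q) = (ζ ^ (a i) - 1) ^ K * coeff a q := by
  induction K with
  | zero => simp
  | succ K ih =>
    rw [pow_succ', Module.End.mul_apply, LinearMap.sub_apply, coeff_sub, AlgHom.toLinearMap_apply,
      coeff_sc, Module.End.one_apply, ih]
    ring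

end Pool.Agent.T6.H17.PB.EXPM

namespace Pool.Agent.T6.H17.PB

open EXPM

theorem exp : StmEXP := by
  classical
  intro n M ζ hM hζ
  refine ⟨?_, ?_, ?_, ?_, ?_⟩
  · intro p hp
    have hdvd : ∀ a ∈ p.support, ∀ i, M ∣ a i := by
      intro a ha i
      obtain ⟨K, hK⟩ := hp i
      have h1 := coeff_pow n ζ i K p a
      rw [hK, coeff_zero] at h1
      have h2 : (ζ ^ (a i) - 1) ^ K = 0 := by
        rcases mul_eq_zero.mp h1.symm with h | h
        · exact h
        · exact absurd h (mem_support_iff.mp ha)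
      have h3 : ζ ^ (a i) = 1 := by
        have := eq_zero_of_pow_eq_zero h2
        exact sub_eq_zero.mp this
      exact (hζ.pow_eq_one_iff_dvd _).mp h3
    refine ⟨∑ a ∈ p.support, monomial (Finsupp.mapRange (fun x => x / M) (Nat.zero_div M) a)
      (coeff a p), ?_⟩
    rw [map_sum]
    conv_rhs => rw [p.as_sum]
    refine Finset.sum_congr rfl fun a ha => ?_
    rw [expand_monomial]
    have h5 : M • Finsupp.mapRange (fun x => x / M) (Nat.zero_div M) a = a := by
      refine Finsupp.ext fun i => ?_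
      rw [Finsupp.smul_apply, Finsupp.mapRange_apply, smul_eq_mul]
      exact Nat.mul_div_cancel' (hdvd a ha i)
    rw [h5]
  · rintro P d (rfl | ⟨k, rfl, hk⟩)
    · left; exact map_zero _
    · right
      refine ⟨M * k, by push_cast; rfl, ?_⟩
      exact hk.aeval _ (fun i => isHomogeneous_X_pow i M)
  · intro P d hP hh
    rcases hh with h0 | ⟨k, rfl, hk⟩
    · exact absurd h0 ((expand_ne_zero hM).mpr hP)
    · obtain ⟨a, ha⟩ := ne_zero_iff.mp hP
      have key : ∀ b, coeff b P ≠ 0 → M * Finsupp.weight (1 : Fin (n + 1) → ℕ) b = k := by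
        intro b hb
        have h1 : coeff (M • b) (expand M P) ≠ 0 := by
          rw [coeff_expand_smul M hM.ne']
          exact hb
        have h2 := hk h1
        rw [map_nsmul, smul_eq_mul] at h2
        exact h2
      refine ⟨(Finsupp.weight (1 : Fin (n + 1) → ℕ) a : ℕ), ?_, Or.inr ⟨_, rfl, ?_⟩⟩
      · rw [← key a ha]; push_cast; rfl
      · intro b hb
        have h1 := key b hb
        rw [← key a ha] at h1
        exact Nat.eq_of_mul_eq_mul_left hM h1
  · intro P x
    exact eval_expand M x P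
  · intro y hy
    choose x hx using fun i => IsAlgClosed.exists_pow_nat_eq (y i) hM
    refine ⟨x, ?_, funext hx⟩
    intro hx0
    apply hy
    funext i
    have h1 := hx i
    rw [hx0, Pi.zero_apply, zero_pow hM.ne'] at h1
    exact h1.symm

end Pool.Agent.T6.H17.PB
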