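import Pool.Agent.T6.H17.PB.Defs

set_option autoImplicit false

open MvPolynomial H960VB H938TB Pool.Agent.W615 Pool.Agent.W467.FO

namespace Pool.Agent.T6.H17.PB

theorem hT_apply (n : ℕ) (ζ : ℂ) (i : Fin (n + 1)) (x : Fin (n + 1) → ℂ) (j : Fin (n + 1)) :
    hT n ζ i x j = (if j = i then ζ else 1) * x j := rfl

theorem hT_inj (n : ℕ) {ζ : ℂ} (hζ : ζ ≠ 0) (i : Fin (n + 1)) :
    Function.Injective (hT n ζ i) := by
  intro x y h
  funext j
  have h1 := congrFun h j
  rw [hT_apply, hT_apply] at h1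
  refine mul_left_cancel₀ ?_ h1
  split_ifs
  · exact hζ
  · exact one_ne_zero

theorem hT_cInc {m : ℕ} (ζ : ℂ) (i : Fin (m + 1 + 1)) :
    hT (m + 1) ζ i ∘ₗ cInc i.succAbove = (1 : ℂ) • cInc i.succAbove := by
  apply LinearMap.ext
  intro x
  funext j
  rw [LinearMap.comp_apply, hT_apply, one_smul]
  by_cases hj : j = i
  · subst hj
    have h0 : cInc j.succAbove x j = 0 := by
      rw [cInc_apply]
      refine Finset.sum_eq_zero fun t _ => ?_
      rw [if_neg (Fin.succAbove_ne j t)]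
    rw [h0, mul_zero]
  · rw [if_neg hj, one_mul]

theorem typ : StmTYP := by
  intro n hn E hE W ζ hζ i O
  obtain ⟨κ, hκ0, hκ⟩ := O.det W (by omega) (hT_inj n hζ i)
  obtain ⟨m, rfl⟩ : ∃ m, n = m + 1 := ⟨n - 1, by omega⟩
  have hSi : Function.Injective (cInc i.succAbove) := cInc_injective _ Fin.succAbove_right_injective
  have hE' : ¬ (E.pull (cInc i.succAbove) hSi).Splits := fun h =>
    hE (Bundle2.splits_of_pull 1 m (m + 1) (by omega) rfl E _ hSi h)
  obtain ⟨u, hu, hu'⟩ := O.typeV W hκ0 hκ (by omega) (cInc i.succAbove) hSi one_ne_zero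
    (hT_cInc ζ i) hE'
  rw [one_zpow, mul_one] at hu
  refine ⟨u, ?_, ?_, ?_⟩
  · rintro rfl
    rw [mul_zero] at hu
    exact hκ0 hu.symm
  · intro a b s t hs ht
    rw [hu]
    exact hκ a b s t hs ht
  · intro d α s hs hr
    obtain ⟨r, hr⟩ := hr
    have h1 := hu' d α s hs ⟨r, fun h0 => hr (X_dvd_of_lsub i h0)⟩
    rwa [one_zpow, mul_one] at h1

end Pool.Agent.T6.H17.PB
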