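import Pool.Agent.T6.H17.PB.ISO
import Pool.Agent.T6.H17.PB.TYP
import Pool.Agent.T6.H17.PB.COM

/-! Project PB: the assembly. -/

set_option autoImplicit false

open MvPolynomial H960VB H938TB Pool.Agent.W615 Pool.Agent.W467.FO

namespace Pool.Agent.T6.H17.PB

variable {n : ℕ}

theorem lsub_hT_eq (ζ : ℂ) (i : Fin (n + 1)) (p : MvPolynomial (Fin (n + 1)) ℂ) :
    lsub (hT n ζ i) p = sc n ζ i p := by
  have h : lsub (hT n ζ i) = sc n ζ i := by
    apply MvPolynomial.algHom_ext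
    intro j
    rw [lsub_hT_X]
    unfold sc
    rw [aeval_X]
  rw [h]

theorem inv_wd {E : Bundle2 n} {W : Wedge (triv E)} {ζ : ℂ} (S : Sys E W ζ) {d e : ℤ}
    {s : S0 E d} {t : S0 E e} (hs : InV S d s) (ht : InV S e t) (i : Fin (n + 1)) :
    ∃ K : ℕ, (((sc n ζ i).toLinearMap - 1) ^ K) (W.wd s.1 t.1) = 0 := by
  have hu := (S.typ i).ne
  obtain ⟨K, hK⟩ := (S.O i).ge_wd W (κ := S.u i * S.u i) (S.typ i).det (hs i) (ht i)
  refine ⟨K, ?_⟩
  have h1 : hM (hT n ζ i) (S.u i * S.u i) - (S.u i * S.u i) • 1 =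
      (S.u i * S.u i) • ((sc n ζ i).toLinearMap - 1) := by
    apply LinearMap.ext
    intro p
    show (S.u i * S.u i) • lsub (hT n ζ i) p - (S.u i * S.u i) • p =
      (S.u i * S.u i) • (sc n ζ i p - p)
    rw [lsub_hT_eq, smul_sub]
  rw [h1, smul_pow, LinearMap.smul_apply] at hK
  exact (smul_eq_zero.1 hK).resolve_left (pow_ne_zero _ (mul_ne_zero hu hu))

theorem fin {E : Bundle2 n} (hn : 3 ≤ n) (hE : ¬ E.Splits) (W : Wedge (triv E)) {ζ : ℂ} {M : ℕ}
    (hM : 0 < M) (hζ : IsPrimitiveRoot ζ M) (S : Sys E W ζ) :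
    ∃ (E' : Bundle2 n) (k : ℤ), ¬ E'.Splits ∧ IsoTwist E (powPull M hM E') k := by
  classical
  obtain ⟨D, N, v, hv, hgen⟩ := gen n hn E hE W ζ M hM hζ S
  have hP : ∀ a b, ∃ P, expand M P = W.wd (v a).1 (v b).1 := fun a b =>
    (exp n M ζ hM hζ).1 _ (fun i => inv_wd S (hv a) (hv b) i)
  choose P hP using hP
  obtain ⟨a0, b0, hab⟩ := hgen (fun _ => 1) (fun h => by simpa using congrFun h 0)
  have h0 : ∀ a b, HomZ (expand M (P a b)) (D + D + W.κ.1) := fun a b => by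
    rw [hP]
    exact wd_homZ W (v a).2 (v b).2
  have hne0 : P a0 b0 ≠ 0 := by
    intro h
    apply hab
    rw [← hP, h, map_zero, map_zero]
  obtain ⟨g, hg, hg'⟩ := homZ_of_expand hM hne0 (h0 a0 b0)
  have hPg : ∀ a b, HomZ (P a b) g := by
    intro a b
    by_cases h : P a b = 0
    · exact Or.inl h
    · obtain ⟨g', hg1, hg2⟩ := homZ_of_expand hM h (h0 a b)
      have h3 : g' = g := by
        have h4 : (M : ℤ) * g' = M * g := by rw [← hg1, ← hg]
        exact mul_left_cancel₀ (by exact_mod_cast hM.ne') h4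
      rwa [h3] at hg2
  exact iso n hn E hE W M hM D N (fun t => (v t).1) (fun t => (v t).2) hgen P g hP hPg

/-- the main theorem for operators -/
theorem main {E : Bundle2 n} (hn : 3 ≤ n) (hE : ¬ E.Splits) {ζ : ℂ} {M : ℕ} (hM : 0 < M)
    (hζ : IsPrimitiveRoot ζ M) (O : ∀ i : Fin (n + 1), GOp E (hT n ζ i))
    (hO : ∀ i j, ∃ c : ℂ, ∀ (d : ℤ) (s : Vec E.a n), Sec E d s →
      (O i).D ((O j).D s) = c • (O j).D ((O i).D s)) :
    ∃ (E' : Bundle2 n) (k : ℤ), ¬ E'.Splits ∧ IsoTwist E (powPull M hM E') k := by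
  obtain ⟨W⟩ := exists_wedge (by omega) (triv E)
  have hζ0 : ζ ≠ 0 := hζ.ne_zero hM.ne'
  choose u hu using fun i => typ n hn E hE W ζ hζ0 i (O i)
  exact fin hn hE W hM hζ ⟨O, u, hu, com n hn E W ζ hζ0 O u hu hO⟩

/-- multiplication of the coordinate `i` by `ζ` as a matrix -/
theorem scale_eq (ζ : ℂ) (i : Fin (n + 1)) :
    (Pool.Agent.Results.MP_745d3a_ag.AbelianSymmetry.scale ζ {i}).mulVecLin = hT n ζ i := by
  apply LinearMap.ext
  intro x
  funext j
  rw [hT_apply, Matrix.mulVecLin_apply]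
  unfold Pool.Agent.Results.MP_745d3a_ag.AbelianSymmetry.scale
  rw [Matrix.mulVec_diagonal]
  simp only [Finset.mem_singleton]

end Pool.Agent.T6.H17.PB
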