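import Pool.Agent.T6.H17.PB.DEG

set_option autoImplicit false

open MvPolynomial H960VB H938TB Pool.Agent.W615 Pool.Agent.W467.FO

namespace Pool.Agent.T6.H17.PB

variable {n : ℕ} {E : Bundle2 n} {W : Wedge (triv E)} {ζ : ℂ}

theorem Rep.sec {S : Sys E W ζ} {d : ℤ} {s : Vec E.a n} (h : Rep S d s) : Sec E d s := by
  induction h with
  | zero => exact sec_zero
  | add s t _ _ hs ht => exact sec_add hs ht
  | gen e p v hp hv =>
    have h1 := sec_mul hp (v.2 : Sec E e v.1)
    rwa [sub_add_cancel] at h1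

theorem Rep.pick {S : Sys E W ζ} {d : ℤ} {s : Vec E.a n} (h : Rep S d s) {b : ℤ} {t : Vec E.a n}
    (ht : Sec E b t) (x : Fin (n + 1) → ℂ) (hne : eval x (W.wd s t) ≠ 0) :
    ∃ (e : ℤ) (v : S0 E e), InV S e v ∧ e ≤ d ∧ eval x (W.wd v.1 t) ≠ 0 := by
  induction h with
  | zero =>
    exfalso
    apply hne
    have h0 : W.wd (0 : Vec E.a n) t = 0 :=
      wd_zero_left W (sec_zero (E := E) (d := 0)).ker ht.ker (fun _ => rfl)
    rw [h0, map_zero]
  | add s s' hs hs' ih ih' =>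
    have h1 : W.wd (s + s') t = W.wd s t + W.wd s' t :=
      wd_add_left W hs.sec.ker hs'.sec.ker ht.ker
    rw [h1, map_add] at hne
    by_cases h2 : eval x (W.wd s t) = 0
    · apply ih'
      intro h3
      rw [h2, h3, add_zero] at hne
      exact hne rfl
    · exact ih h2
  | gen e p v hp hv =>
    have h1 : W.wd (fun q => p * v.1 q) t = p * W.wd v.1 t :=
      W.smul p v.1 t (v.2 : Sec E e v.1).ker ht.ker
    rw [h1, map_mul] at hne
    refine ⟨e, v, hv, ?_, right_ne_zero_of_mul hne⟩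
    rcases hp with hp | ⟨k, hk, -⟩
    · rw [hp, map_zero, zero_mul] at hne
      exact absurd rfl hne
    · omega

/-- multiplication by an invariant polynomial -/
theorem InV.mul {S : Sys E W ζ} {e d : ℤ} {v : S0 E e} (hv : InV S e v)
    {p : MvPolynomial (Fin (n + 1)) ℂ} (hp : HomZ p d) (hinv : ∀ i, lsub (hT n ζ i) p = p)
    (hs : Sec E (d + e) (fun q => p * v.1 q)) :
    InV S (d + e) ⟨fun q => p * v.1 q, hs⟩ := by
  intro i
  obtain ⟨k, hk⟩ := hv i
  refine ⟨k, ?_⟩
  have key : ∀ (k : ℕ) (w : S0 E e) (hw : Sec E (d + e) (fun q => p * w.1 q)),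
      ((((S.O i).lin (d + e) - S.u i • 1) ^ k) ⟨fun q => p * w.1 q, hw⟩).1 =
        fun q => p * ((((S.O i).lin e - S.u i • 1) ^ k) w).1 q := by
    intro k
    induction k with
    | zero => intro w hw; rfl
    | succ k ih =>
      intro w hw
      rw [pow_succ, pow_succ, Module.End.mul_apply, Module.End.mul_apply]
      have h1 : ((S.O i).lin (d + e) - S.u i • 1) ⟨fun q => p * w.1 q, hw⟩ =
          ⟨fun q => p * (((S.O i).lin e - S.u i • 1) w).1 q, by
            exact sec_mul hp (((S.O i).lin e - S.u i • 1) w).2⟩ := by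
        apply Subtype.ext
        funext q
        have h2 : (S.O i).D (fun q => p * w.1 q) = fun q => p * (S.O i).D w.1 q := by
          rw [(S.O i).mul e d p w.1 w.2 hp, hinv i]
        show (S.O i).D (fun q => p * w.1 q) q - (S.u i • (fun q => p * w.1 q)) q =
          p * ((S.O i).D w.1 q - (S.u i • w.1) q)
        rw [h2]
        simp only [Pi.smul_apply, smul_eq_C_mul]
        ring
      rw [h1]
      exact ih _ _
  apply Subtype.ext
  rw [key k v hs]
  funext q
  have : (((S.O i).lin e - S.u i • 1) ^ k) v = 0 := hk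
  rw [this]
  show p * 0 = 0
  rw [mul_zero]

theorem lsub_hT_X (i j : Fin (n + 1)) :
    lsub (hT n ζ i) (X j) = C (if j = i then ζ else 1) * X j := by
  apply MvPolynomial.funext
  intro x
  rw [eval_lsub, eval_X, hT_apply, map_mul, eval_C, eval_X]

theorem gen : StmGEN := by
  intro n hn E hE W ζ M hM hζ S
  obtain ⟨d0, hd0⟩ := exists_deg W
  -- pairs of semi-invariant sections
  have pair : ∀ x : Fin (n + 1) → ℂ, x ≠ 0 → ∃ (e e' : ℤ) (v : S0 E e) (v' : S0 E e'),
      InV S e v ∧ InV S e' v' ∧ e ≤ d0 ∧ e' ≤ d0 ∧ eval x (W.wd v.1 v'.1) ≠ 0 := by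
    intro x hx
    obtain ⟨G, G', hG, hG', hne⟩ := hd0 x hx
    obtain ⟨e, v, hv, he, hne1⟩ := (exists_rep S d0 ⟨G, hG⟩).pick hG' x hne
    have hne2 : eval x (W.wd G' v.1) ≠ 0 := by
      rw [W.anti G' v.1 hG'.ker (v.2 : Sec E e v.1).ker, map_neg]
      exact neg_ne_zero.2 hne1
    obtain ⟨e', v', hv', he', hne3⟩ := (exists_rep S d0 ⟨G', hG'⟩).pick
      (v.2 : Sec E e v.1) x hne2
    refine ⟨e, e', v, v', hv, hv', he, he', ?_⟩
    rw [W.anti v.1 v'.1 (v.2 : Sec E e v.1).ker (v'.2 : Sec E e' v'.1).ker, map_neg]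
    exact neg_ne_zero.2 hne3
  have ne_left : ∀ {x : Fin (n + 1) → ℂ} {e e' : ℤ} {v : S0 E e} {v' : S0 E e'},
      eval x (W.wd v.1 v'.1) ≠ 0 → v ≠ 0 := by
    intro x e e' v v' h h0
    apply h
    rw [wd_zero_left W (v.2 : Sec E e v.1).ker (v'.2 : Sec E e' v'.1).ker
      (fun i => by rw [h0]; rfl), map_zero]
  have ne_right : ∀ {x : Fin (n + 1) → ℂ} {e e' : ℤ} {v : S0 E e} {v' : S0 E e'},
      eval x (W.wd v.1 v'.1) ≠ 0 → v' ≠ 0 := by
    intro x e e' v v' h h0
    apply h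
    rw [wd_zero_right W (v.2 : Sec E e v.1).ker (v'.2 : Sec E e' v'.1).ker
      (fun i => by rw [h0]; rfl), map_zero]
  obtain ⟨e0, e0', v0, v0', hv0, _, _, _, hne0⟩ := pair (fun _ => 1)
    (fun h => by simpa using congrFun h 0)
  have hv00 := ne_left hne0
  -- the common degree
  obtain ⟨K, hK⟩ : ∃ K : ℕ, d0 ≤ e0 + M * K := by
    refine ⟨(d0 - e0).toNat, ?_⟩
    have h1 : ((d0 - e0).toNat : ℤ) ≤ (M : ℤ) * ((d0 - e0).toNat : ℤ) := by
      have : (1 : ℤ) ≤ M := by exact_mod_cast hM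
      nlinarith [Int.natCast_nonneg (d0 - e0).toNat]
    have h2 : d0 - e0 ≤ ((d0 - e0).toNat : ℤ) := Int.self_le_toNat _
    omega
  set D : ℤ := e0 + M * K with hD
  have lift : ∀ (e : ℤ) (v : S0 E e), InV S e v → e ≤ d0 → v ≠ 0 → ∀ j : Fin (n + 1),
      ∃ (k : ℕ) (h : Sec E D (fun q => X j ^ k * v.1 q)),
        InV S D ⟨fun q => X j ^ k * v.1 q, h⟩ := by
    intro e v hv he hv1 j
    obtain ⟨c, hc⟩ := deg n hn E hE W ζ M hM hζ S e0 e v0 v hv0 hv hv00 hv1
    have hc2 : D - e = M * (c + K) := by rw [hD]; linear_combination hc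
    have hc3 : 0 ≤ c + K := by
      by_contra hcon
      push Not at hcon
      have h1 : (M : ℤ) * (c + K) < 0 := by
        have : (1 : ℤ) ≤ M := by exact_mod_cast hM
        nlinarith
      omega
    obtain ⟨k, hk⟩ := Int.eq_ofNat_of_zero_le hc3
    rw [hk] at hc2
    have hp : HomZ (X j ^ (M * k) : MvPolynomial (Fin (n + 1)) ℂ) (D - e) := by
      right
      refine ⟨M * k, by push_cast; exact hc2.symm, ?_⟩
      exact isHomogeneous_X_pow j (M * k)
    have hsec := sec_mul hp (v.2 : Sec E e v.1)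
    have hinv : ∀ i, lsub (hT n ζ i) (X j ^ (M * k)) = X j ^ (M * k) := by
      intro i
      rw [map_pow, lsub_hT_X, mul_pow, ← C_pow]
      have : (if j = i then ζ else 1) ^ (M * k) = (1 : ℂ) := by
        split_ifs
        · rw [pow_mul, hζ.pow_eq_one, one_pow]
        · exact one_pow _
      rw [this, C_1, one_mul]
    have h3 := InV.mul hv hp hinv hsec
    have hDe : D - e + e = D := by ring
    refine ⟨M * k, by rw [hDe] at hsec; exact hsec, ?_⟩
    have gen' : ∀ (D' : ℤ) (hD' : D' = D) (w : Vec E.a n) (h : Sec E D' w) (h' : Sec E D w),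
        InV S D' ⟨w, h⟩ → InV S D ⟨w, h'⟩ := by
      intro D' hD' w h h' hh
      subst hD'
      exact hh
    exact gen' _ hDe _ hsec _ h3
  -- the finite family
  let VD : Submodule ℂ (S0 E D) := ⨅ i, Module.End.maxGenEigenspace ((S.O i).lin D) (S.u i)
  have hVD : ∀ w, w ∈ VD ↔ InV S D w := by
    intro w
    show w ∈ (⨅ i, Module.End.maxGenEigenspace ((S.O i).lin D) (S.u i)) ↔ _
    rw [Submodule.mem_iInf]
    constructor
    · intro h i
      have := h i
      rw [Module.End.mem_maxGenEigenspace] at this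
      exact this
    · intro h i
      rw [Module.End.mem_maxGenEigenspace]
      exact h i
  obtain ⟨N, v, hv⟩ := Submodule.fg_iff_exists_fin_generating_family.1
    (IsNoetherian.noetherian VD)
  have hvV : ∀ t, v t ∈ VD := fun t => by rw [← hv]; exact Submodule.subset_span ⟨t, rfl⟩
  refine ⟨D, N, v, fun t => (hVD _).1 (hvV t), ?_⟩
  intro x hx
  by_contra hcon
  push Not at hcon
  let ev : MvPolynomial (Fin (n + 1)) ℂ →ₗ[ℂ] ℂ := (aeval x).toLinearMap
  have hev : ∀ p, ev p = eval x p := fun p => by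
    show aeval x p = eval x p
    rw [MvPolynomial.aeval_eq_eval]
  have h1 : ∀ b, ∀ s ∈ VD, ev (wdB W D D s (v b)) = 0 := by
    intro b s hs
    rw [← hv] at hs
    have hle : Submodule.span ℂ (Set.range v) ≤
        LinearMap.ker (ev ∘ₗ (wdB W D D).flip (v b)) := by
      rw [Submodule.span_le]
      rintro _ ⟨a, rfl⟩
      show ev (wdB W D D (v a) (v b)) = 0
      rw [hev, wdB_apply]
      exact hcon a b
    exact hle hs
  have h2 : ∀ s ∈ VD, ∀ t ∈ VD, ev (wdB W D D s t) = 0 := by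
    intro s hs t ht
    rw [← hv] at ht
    have hle : Submodule.span ℂ (Set.range v) ≤ LinearMap.ker (ev ∘ₗ (wdB W D D) s) := by
      rw [Submodule.span_le]
      rintro _ ⟨a, rfl⟩
      exact h1 a s hs
    exact hle ht
  obtain ⟨e, e', w, w', hw, hw', he, he', hne⟩ := pair x hx
  obtain ⟨j, hj⟩ : ∃ j, x j ≠ 0 := by
    by_contra h
    push Not at h
    exact hx (funext h)
  obtain ⟨k, hk, hk1⟩ := lift e w hw he (ne_left hne) j
  obtain ⟨k', hk', hk1'⟩ := lift e' w' hw' he' (ne_right hne) j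
  have h3 := h2 _ ((hVD _).2 hk1) _ ((hVD _).2 hk1')
  rw [hev, wdB_apply] at h3
  apply hne
  have h4 : W.wd (fun q => X j ^ k * w.1 q) (fun q => X j ^ k' * w'.1 q) =
      X j ^ k * (X j ^ k' * W.wd w.1 w'.1) := by
    rw [W.smul _ _ _ (w.2 : Sec E e w.1).ker hk'.ker, wd_mul_right W (w'.2 : Sec E e' w'.1).ker
      (w.2 : Sec E e w.1).ker]
  have h5 : eval x (W.wd (fun q => X j ^ k * w.1 q) (fun q => X j ^ k' * w'.1 q)) = 0 := h3
  rw [h4, map_mul, map_mul, map_pow, map_pow, eval_X] at h5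
  exact ((mul_eq_zero.1 ((mul_eq_zero.1 h5).resolve_left (pow_ne_zero _ hj))).resolve_left
    (pow_ne_zero _ hj))

end Pool.Agent.T6.H17.PB
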