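import Pool.Agent.T6.H17.PB.DefsM

/-! Module LA of project PB (`MP_745d3a_ag`): the kernel of the Plücker matrix. -/

set_option autoImplicit false

open MvPolynomial H960VB

namespace Pool.Agent.T6.H17.PB

lemma plM_mulVec {N : ℕ} (p : Fin N → Fin N → ℂ) (v : Fin N → ℂ)
    (r : Fin (Fintype.card (Fin N × Fin N × Fin N))) :
    (plM N p).mulVec v r =
      v ((Fintype.equivFin (Fin N × Fin N × Fin N)).symm r).1 *
          p ((Fintype.equivFin (Fin N × Fin N × Fin N)).symm r).2.1
            ((Fintype.equivFin (Fin N × Fin N × Fin N)).symm r).2.2 -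
        v ((Fintype.equivFin (Fin N × Fin N × Fin N)).symm r).2.1 *
          p ((Fintype.equivFin (Fin N × Fin N × Fin N)).symm r).1
            ((Fintype.equivFin (Fin N × Fin N × Fin N)).symm r).2.2 +
        v ((Fintype.equivFin (Fin N × Fin N × Fin N)).symm r).2.2 *
          p ((Fintype.equivFin (Fin N × Fin N × Fin N)).symm r).1
            ((Fintype.equivFin (Fin N × Fin N × Fin N)).symm r).2.1 := by
  generalize hx : (Fintype.equivFin (Fin N × Fin N × Fin N)).symm r = x
  obtain ⟨a, b, c⟩ := x
  have h : ∀ l, plM N p r l * v l =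
      (if l = a then v a * p b c else 0) - (if l = b then v b * p a c else 0) +
        (if l = c then v c * p a b else 0) := by
    intro l
    unfold plM
    rw [hx]
    simp only
    rw [add_mul, sub_mul]
    congr 1
    · congr 1
      · split_ifs with h
        · rw [h]; ring
        · ring
      · split_ifs with h
        · rw [h]; ring
        · ring
    · split_ifs with h
      · rw [h]; ring
      · ring
  have h2 : (plM N p).mulVec v r = ∑ l, plM N p r l * v l := rfl
  rw [h2, Finset.sum_congr rfl (fun l _ => h l), Finset.sum_add_distrib, Finset.sum_sub_distrib,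
    Finset.sum_ite_eq' , Finset.sum_ite_eq', Finset.sum_ite_eq']
  simp only [Finset.mem_univ, if_true]

lemma mem_ker_plM {N : ℕ} (p : Fin N → Fin N → ℂ) (v : Fin N → ℂ) :
    v ∈ LinearMap.ker (Matrix.mulVecLin (plM N p)) ↔
      ∀ i j k, v i * p j k - v j * p i k + v k * p i j = 0 := by
  rw [LinearMap.mem_ker, Matrix.mulVecLin_apply]
  constructor
  · intro h i j k
    have h1 := congrFun h (Fintype.equivFin (Fin N × Fin N × Fin N) (i, j, k))
    rw [plM_mulVec, Equiv.symm_apply_apply] at h1
    exact h1
  · intro h
    funext r
    rw [plM_mulVec]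
    exact h _ _ _

theorem la : StmLA := by
  intro N p hanti hpl hne
  refine ⟨?_, fun v => mem_ker_plM p v⟩
  obtain ⟨i, j, hij⟩ := hne
  have hself : ∀ a, p a a = 0 := fun a => by
    have := hanti a a
    linear_combination (1 / 2 : ℂ) * this
  let φ : LinearMap.ker (Matrix.mulVecLin (plM N p)) →ₗ[ℂ] ℂ × ℂ :=
    { toFun := fun v => ((v : Fin N → ℂ) i, (v : Fin N → ℂ) j)
      map_add' := fun v w => rfl
      map_smul' := fun c v => rfl }
  have hφ : Function.Bijective φ := by
    constructor
    · rw [injective_iff_map_eq_zero]
      intro v hv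
      have h1 : (v : Fin N → ℂ) i = 0 := congrArg Prod.fst hv
      have h2 : (v : Fin N → ℂ) j = 0 := congrArg Prod.snd hv
      have h3 := (mem_ker_plM p (v : Fin N → ℂ)).1 v.2
      apply Subtype.ext
      funext k
      have h4 := h3 i j k
      rw [h1, h2, zero_mul, zero_mul, sub_zero, zero_add] at h4
      exact (mul_eq_zero.1 h4).resolve_right hij
    · rintro ⟨a, b⟩
      have hmem : (fun k => (b * p i k - a * p j k) / p i j) ∈
          LinearMap.ker (Matrix.mulVecLin (plM N p)) := by
        rw [mem_ker_plM]
        intro x y z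
        have h1 := hpl i x y z
        have h2 := hpl j x y z
        field_simp
        linear_combination b * h1 - a * h2
      refine ⟨⟨_, hmem⟩, ?_⟩
      have e1 : (b * p i i - a * p j i) / p i j = a := by
        rw [hself i, hanti j i]
        field_simp
        ring
      have e2 : (b * p i j - a * p j j) / p i j = b := by
        rw [hself j]
        field_simp
        ring
      exact Prod.ext e1 e2
  rw [(LinearEquiv.ofBijective φ hφ).finrank_eq, Module.finrank_prod, Module.finrank_self]

end Pool.Agent.T6.H17.PB
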