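import Pool.Agent.T6.H17.PB.GEN
import Pool.Agent.T6.H17.PB.LA
import Pool.Agent.T6.H17.PB.CR
import Pool.Agent.T6.H17.PB.EXP
import Pool.Agent.W615.X3

set_option autoImplicit false

open MvPolynomial H960VB H938TB Pool.Agent.W615 Pool.Agent.W467.FO

namespace Pool.Agent.T6.H17.PB

variable {n : ℕ}

theorem homZ_expand {M : ℕ} (hM : 0 < M) {P : MvPolynomial (Fin (n + 1)) ℂ} {d : ℤ}
    (h : HomZ P d) : HomZ (expand M P) (M * d) :=
  (exp n M _ hM (Complex.isPrimitiveRoot_exp M (by omega))).2.1 P d h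

theorem homZ_of_expand {M : ℕ} (hM : 0 < M) {P : MvPolynomial (Fin (n + 1)) ℂ} {d : ℤ}
    (h0 : P ≠ 0) (h : HomZ (expand M P) d) : ∃ e : ℤ, d = M * e ∧ HomZ P e :=
  (exp n M _ hM (Complex.isPrimitiveRoot_exp M (by omega))).2.2.1 P d h0 h

theorem eval_expand' {M : ℕ} (hM : 0 < M) (P : MvPolynomial (Fin (n + 1)) ℂ)
    (x : Fin (n + 1) → ℂ) : eval x (expand M P) = eval (fun i => x i ^ M) P :=
  (exp n M _ hM (Complex.isPrimitiveRoot_exp M (by omega))).2.2.2.1 P x

theorem exists_root {M : ℕ} (hM : 0 < M) (y : Fin (n + 1) → ℂ) (hy : y ≠ 0) :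
    ∃ x : Fin (n + 1) → ℂ, x ≠ 0 ∧ (fun i => x i ^ M) = y :=
  (exp n M _ hM (Complex.isPrimitiveRoot_exp M (by omega))).2.2.2.2 y hy

theorem pow_ne {M : ℕ} (hM : 0 < M) {x : Fin (n + 1) → ℂ} (hx : x ≠ 0) :
    (fun i => x i ^ M) ≠ 0 := by
  intro h
  apply hx
  funext i
  have := congrFun h i
  exact pow_eq_zero_iff (by omega) |>.1 this

/-- the bundle `f^* E` for the power map `f = (x_0^M : … : x_n^M)` -/
noncomputable def powPull (M : ℕ) (hM : 0 < M) (E : Bundle2 n) : Bundle2 n where
  a := E.a
  c := E.c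
  β := fun i => M * E.β i
  γ := fun k => M * E.γ k
  B := E.B.map (expand M)
  hom := by
    intro k i
    have h := homZ_expand hM (E.hom k i)
    rw [Matrix.map_apply, ← mul_sub]
    exact h
  rank_two := by
    intro x hx
    have h : evm (E.B.map (expand M)) x = evm E.B (fun i => x i ^ M) := by
      ext k i
      exact eval_expand' hM _ _
    rw [h]
    exact E.rank_two _ (pow_ne hM hx)

theorem fib_powPull (M : ℕ) (hM : 0 < M) (E : Bundle2 n) (x : Fin (n + 1) → ℂ) :
    (powPull M hM E).fib x = E.fib (fun i => x i ^ M) := by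
  have h : evm (powPull M hM E).B x = evm E.B (fun i => x i ^ M) := by
    ext k i
    exact eval_expand' hM _ _
  unfold Bundle2.fib
  rw [h]
  rfl

theorem evm_plM (N : ℕ) (P : Fin N → Fin N → MvPolynomial (Fin (n + 1)) ℂ)
    (x : Fin (n + 1) → ℂ) : evm (plM N P) x = plM N (fun a b => eval x (P a b)) := by
  ext r l
  simp only [evm, Matrix.map_apply, plM, map_add, map_sub]
  congr 1
  · congr 1
    · split_ifs <;> simp
    · split_ifs <;> simp
  · split_ifs <;> simp

theorem poly_zero {q : MvPolynomial (Fin (n + 1)) ℂ}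
    (h : ∀ x : Fin (n + 1) → ℂ, x ≠ 0 → eval x q = 0) : q = 0 := by
  have h1 : q * X 0 = 0 := by
    apply MvPolynomial.funext
    intro x
    rw [map_mul, map_zero]
    by_cases hx : x = 0
    · rw [hx, eval_X]; simp
    · rw [h x hx, zero_mul]
  exact (mul_eq_zero.1 h1).resolve_right (X_ne_zero 0)

/-- ISO, with the concrete pull-back -/
theorem iso (n : ℕ) (hn : 3 ≤ n) (E : Bundle2 n) (hE : ¬ E.Splits) (W : Wedge (triv E))
    (M : ℕ) (hM : 0 < M) (D : ℤ) (N : ℕ) (v : Fin N → Vec E.a n) (hv : ∀ t, Sec E D (v t))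
    (hgen : ∀ x : Fin (n + 1) → ℂ, x ≠ 0 → ∃ a b, eval x (W.wd (v a) (v b)) ≠ 0)
    (P : Fin N → Fin N → MvPolynomial (Fin (n + 1)) ℂ) (g : ℤ)
    (hP : ∀ a b, expand M (P a b) = W.wd (v a) (v b)) (hPg : ∀ a b, HomZ (P a b) g) :
    ∃ (E' : Bundle2 n) (k : ℤ), ¬ E'.Splits ∧ IsoTwist E (powPull M hM E') k := by
  classical
  have hker : ∀ t, Ker E (v t) := fun t => (hv t).ker
  set p : Fin N → Fin N → MvPolynomial (Fin (n + 1)) ℂ := fun a b => W.wd (v a) (v b) with hp
  have anti : ∀ a b, p a b = - p b a := fun a b => W.anti _ _ (hker a) (hker b)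
  have four : ∀ a b c d, p a b * p c d - p a c * p b d + p a d * p b c = 0 := fun a b c d =>
    W.four _ _ _ _ (hker a) (hker b) (hker c) (hker d)
  -- the bundle `E'`
  have hval : ∀ x : Fin (n + 1) → ℂ, (fun a b => eval (fun i => x i ^ M) (P a b)) =
      fun a b => eval x (p a b) := by
    intro x
    funext a b
    rw [← eval_expand' hM, hP]
  have hla : ∀ x : Fin (n + 1) → ℂ, x ≠ 0 →
      Module.finrank ℂ (LinearMap.ker (Matrix.mulVecLin (plM N (fun a b => eval x (p a b))))) = 2 ∧
      ∀ w : Fin N → ℂ, w ∈ LinearMap.ker (Matrix.mulVecLin (plM N (fun a b => eval x (p a b)))) ↔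
        ∀ i j k, w i * eval x (p j k) - w j * eval x (p i k) + w k * eval x (p i j) = 0 := by
    intro x hx
    refine la N (fun a b => eval x (p a b)) ?_ ?_ ?_
    · intro a b
      rw [anti a b, map_neg]
    · intro a b c d
      have := congrArg (eval x) (four a b c d)
      simpa only [map_add, map_sub, map_mul, map_zero] using this
    · exact hgen x hx
  let E' : Bundle2 n :=
    { a := N
      c := Fintype.card (Fin N × Fin N × Fin N)
      β := fun _ => 0
      γ := fun _ => g
      B := plM N P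
      hom := by
        intro k i
        rw [sub_zero]
        exact homZ_add (homZ_sub (homZ_ite _ (hPg _ _)) (homZ_ite _ (hPg _ _)))
          (homZ_ite _ (hPg _ _))
      rank_two := by
        intro y hy
        obtain ⟨x, hx, rfl⟩ := exists_root hM y hy
        rw [evm_plM, hval]
        exact (hla x hx).1 }
  have hfib : ∀ x : Fin (n + 1) → ℂ, x ≠ 0 → ∀ w : Fin N → ℂ,
      w ∈ (powPull M hM E').fib x ↔
        ∀ i j k, w i * eval x (p j k) - w j * eval x (p i k) + w k * eval x (p i j) = 0 := by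
    intro x hx w
    rw [fib_powPull]
    have h1 : E'.fib (fun i => x i ^ M) =
        LinearMap.ker (Matrix.mulVecLin (plM N (fun a b => eval x (p a b)))) := by
      show LinearMap.ker (Matrix.mulVecLin (evm (plM N P) (fun i => x i ^ M))) = _
      rw [evm_plM, hval]
    rw [h1]
    exact (hla x hx).2 w
  set κ := W.κ.1 with hκ
  let φ : Vec E.a n → Vec (powPull M hM E').a n := fun s t => W.wd (v t) s
  -- a nonzero entry
  obtain ⟨a0, b0, hab⟩ := hgen (fun _ => 1) (fun h => by simpa using congrFun h 0)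
  have hab0 : p a0 b0 ≠ 0 := fun h => hab (by
    show eval _ (p a0 b0) = 0
    rw [h, map_zero])
  have φsec : ∀ (d : ℤ) (G : Vec E.a n), E.IsSection d G →
      (powPull M hM E').IsSection (d + (D + κ)) (φ G) := by
    intro d G hG
    have hG' := sec_of_isSection hG
    refine ⟨fun t => ?_, fun x hx => ?_⟩
    · have h1 := wd_homZ W (hv t) hG'
      show HomZ (W.wd (v t) G) ((M : ℤ) * 0 + (d + (D + κ)))
      rw [mul_zero, zero_add]
      convert h1 using 1
      ring
    · refine (hfib x hx _).2 ?_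
      intro i j k
      have h1 := congrArg (eval x) (W.four _ _ _ _ hG'.ker (hker i) (hker j) (hker k))
      rw [W.anti G (v i) hG'.ker (hker i), W.anti G (v j) hG'.ker (hker j),
        W.anti G (v k) hG'.ker (hker k)] at h1
      simp only [map_add, map_sub, map_mul, map_zero, map_neg] at h1
      show eval x (W.wd (v i) G) * eval x (W.wd (v j) (v k)) -
        eval x (W.wd (v j) G) * eval x (W.wd (v i) (v k)) +
        eval x (W.wd (v k) G) * eval x (W.wd (v i) (v j)) = 0
      linear_combination -h1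
  have φadd : ∀ (d : ℤ) (G G' : Vec E.a n), E.IsSection d G → E.IsSection d G' →
      φ (G + G') = φ G + φ G' := by
    intro d G G' hG hG'
    funext t
    exact wd_add_right W (sec_of_isSection hG).ker (sec_of_isSection hG').ker (hker t)
  have φmul : ∀ (d e : ℤ) (q : MvPolynomial (Fin (n + 1)) ℂ) (G : Vec E.a n), E.IsSection d G →
      HomZ q e → φ (q • G) = q • φ G := by
    intro d e q G hG _
    funext t
    exact wd_mul_right W (sec_of_isSection hG).ker (hker t) q
  have φinj : ∀ (d : ℤ) (G : Vec E.a n), E.IsSection d G → φ G = 0 → G = 0 := by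
    intro d G hG h0
    have hG' := sec_of_isSection hG
    funext i
    have h1 := W.three G (v a0) (v b0) hG'.ker (hker a0) (hker b0) i
    have h2 : W.wd (v b0) G = 0 := congrFun h0 b0
    have h3 : W.wd (v a0) G = 0 := congrFun h0 a0
    rw [W.anti G (v b0) hG'.ker (hker b0), W.anti G (v a0) hG'.ker (hker a0), h2, h3] at h1
    have h4 : p a0 b0 * G i = 0 := by
      show W.wd (v a0) (v b0) * G i = 0
      linear_combination h1
    exact (mul_eq_zero.1 h4).resolve_left hab0
  have φsurj : ∀ (d : ℤ) (H : Vec (powPull M hM E').a n),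
      (powPull M hM E').IsSection (d + (D + κ)) H → ∃ G, E.IsSection d G ∧ φ G = H := by
    intro d H hH
    have hHhom : ∀ t : Fin N, HomZ (H t) (d + (D + κ)) := by
      intro t
      have := hH.1 t
      have e1 : (powPull M hM E').β t + (d + (D + κ)) = d + (D + κ) := by
        show (M : ℤ) * 0 + _ = _
        ring
      rwa [e1] at this
    have rel : ∀ i j k : Fin N, H i * p j k - H j * p i k + H k * p i j = 0 := by
      intro i j k
      apply poly_zero
      intro x hx
      have h1 := (hfib x hx _).1 (hH.2 x hx) i j k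
      simp only [map_add, map_sub, map_mul]
      exact h1
    have three : ∀ (i j k : Fin N) (r : Fin E.a),
        p j k * v i r - p i k * v j r + p i j * v k r = 0 := fun i j k r =>
      W.three _ _ _ (hker i) (hker j) (hker k) r
    -- consistency
    have cons : ∀ (r : Fin E.a) (a b c e : Fin N), p a b * (H c * v e r - H e * v c r) =
        p c e * (H a * v b r - H b * v a r) := by
      intro r a b c e
      linear_combination (-v e r) * (-(rel a b c)) + (v c r) * (-(rel a b e)) +
        H b * three a c e r - H a * three b c e r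
    have hs : ∀ r : Fin E.a, ∃ s : MvPolynomial (Fin (n + 1)) ℂ, ∀ ab : Fin N × Fin N,
        H ab.1 * v ab.2 r - H ab.2 * v ab.1 r = p ab.1 ab.2 * s := by
      intro r
      refine cr n (by omega) (Fin N × Fin N) inferInstance (fun ab => p ab.1 ab.2)
        (fun ab => H ab.1 * v ab.2 r - H ab.2 * v ab.1 r) ?_ ?_
      · intro x hx
        obtain ⟨a, b, h⟩ := hgen x hx
        exact ⟨(a, b), h⟩
      · intro i j
        exact cons r i.1 i.2 j.1 j.2
    choose G hG using hs
    have hGker : Ker E G := by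
      intro k
      have h1 := hker a0 k
      have h2 := hker b0 k
      have h3 : p a0 b0 * ∑ i, E.B k i * G i = 0 := by
        have h4 : p a0 b0 * ∑ i, E.B k i * G i = H a0 * ∑ i, E.B k i * v b0 i -
            H b0 * ∑ i, E.B k i * v a0 i := by
          rw [Finset.mul_sum, Finset.mul_sum, Finset.mul_sum, ← Finset.sum_sub_distrib]
          refine Finset.sum_congr rfl fun i _ => ?_
          have := hG i (a0, b0)
          linear_combination (-E.B k i) * this
        rw [h4, h1, h2]
        ring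
      exact (mul_eq_zero.1 h3).resolve_left hab0
    have hGhom : ∀ r, HomZ (G r) (E.β r + d) := by
      intro r
      have h1 : HomZ (p a0 b0) (D + D + κ) := wd_homZ W (hv a0) (hv b0)
      have h2 : HomZ (p a0 b0 * G r) ((d + (D + κ)) + (E.β r + D)) := by
        rw [← hG r (a0, b0)]
        exact homZ_sub (homZ_mul (hHhom a0) ((hv b0).homZ r)) (homZ_mul (hHhom b0) ((hv a0).homZ r))
      have h3 := homZ_div hab0 h1 h2
      convert h3 using 1
      ring
    have hGs : Sec E d G := by
      refine ⟨fun i => ?_, hGker⟩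
      have h1 := wh_triv (hGhom i)
      convert h1 using 1
      simp [triv]
    refine ⟨G, sec_iff.1 hGs, ?_⟩
    funext t
    obtain ⟨i, j, hij⟩ := W.P_ne (fun _ => 1) (fun h => by simpa using congrFun h 0)
    have hij0 : W.P i j ≠ 0 := fun h => hij (by rw [h, map_zero])
    have e1 := W.eq (v t) G (hker t) hGker i j
    have e2 := W.eq (v t) (v b0) (hker t) (hker b0) i j
    have e3 := W.eq (v t) (v a0) (hker t) (hker a0) i j
    have g1 := hG i (a0, b0)
    have g2 := hG j (a0, b0)
    have r1 := rel t a0 b0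
    show W.wd (v t) G = H t
    have h5 : (p a0 b0 * W.P i j) * W.wd (v t) G = (p a0 b0 * W.P i j) * H t := by
      have k1 : p t b0 = W.wd (v t) (v b0) := rfl
      have k2 : p t a0 = W.wd (v t) (v a0) := rfl
      have g1' : H a0 * v b0 i - H b0 * v a0 i = p a0 b0 * G i := g1
      have g2' : H a0 * v b0 j - H b0 * v a0 j = p a0 b0 * G j := g2
      rw [k1, k2] at r1
      linear_combination (-p a0 b0) * e1 - v t i * g2' + v t j * g1' + H a0 * e2 - H b0 * e3 -
        W.P i j * r1
    exact mul_left_cancel₀ (mul_ne_zero hab0 hij0) h5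
  refine ⟨E', D + κ, ?_, φ, φsec, φadd, φmul, φinj, φsurj⟩
  -- `E'` does not split
  rintro ⟨pp, qq, G₁, G₂, h₁, h₂, h₃⟩
  apply hE
  have up : ∀ (r : ℤ) (G : Fin E'.a → MvPolynomial (Fin (n + 1)) ℂ), E'.IsSection (-r) G →
      (powPull M hM E').IsSection (-(M * r + (D + κ)) + (D + κ)) (fun i => expand M (G i)) := by
    intro r G hG
    refine ⟨fun i => ?_, fun x hx => ?_⟩
    · have h1 := homZ_expand hM (hG.1 i)
      show HomZ (expand M (G i)) ((M : ℤ) * E'.β i + _)
      convert h1 using 1
      ring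
    · rw [fib_powPull]
      have h1 := hG.2 _ (pow_ne hM hx)
      have h2 : evv G (fun i => x i ^ M) = evv (fun i => expand M (G i)) x := by
        funext i
        exact (eval_expand' hM _ _).symm
      exact h2 ▸ h1
  obtain ⟨s₁, hs₁, hφ₁⟩ := φsurj _ _ (up pp G₁ h₁)
  obtain ⟨s₂, hs₂, hφ₂⟩ := φsurj _ _ (up qq G₂ h₂)
  refine ⟨_, _, s₁, s₂, hs₁, hs₂, fun x hx => ?_⟩
  have k₁ := sec_of_isSection hs₁
  have k₂ := sec_of_isSection hs₂
  rw [← W.ind x hx s₁ s₂ k₁.ker k₂.ker]
  intro h0
  have hli := h₃ _ (pow_ne hM hx)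
  have v1 : ∀ t, eval (fun i => x i ^ M) (G₁ t) = eval x (W.wd (v t) s₁) := by
    intro t
    rw [← eval_expand' hM]
    exact (congrArg (eval x) (congrFun hφ₁ t)).symm
  have v2 : ∀ t, eval (fun i => x i ^ M) (G₂ t) = eval x (W.wd (v t) s₂) := by
    intro t
    rw [← eval_expand' hM]
    exact (congrArg (eval x) (congrFun hφ₂ t)).symm
  have hdep : ∀ a b, eval (fun i => x i ^ M) (G₁ a) * eval (fun i => x i ^ M) (G₂ b) =
      eval (fun i => x i ^ M) (G₁ b) * eval (fun i => x i ^ M) (G₂ a) := by
    intro a b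
    have h1 := congrArg (eval x) (W.four _ _ _ _ (hker a) (hker b) k₁.ker k₂.ker)
    simp only [map_add, map_sub, map_mul, map_zero] at h1
    rw [h0, mul_zero] at h1
    rw [v1, v1, v2, v2]
    linear_combination -h1
  have hne := hli.ne_zero 0
  obtain ⟨a, ha⟩ : ∃ a, eval (fun i => x i ^ M) (G₁ a) ≠ 0 := by
    by_contra hcon
    push Not at hcon
    apply hne
    funext a
    exact hcon a
  rw [LinearIndependent.pair_iff] at hli
  have := hli (eval (fun i => x i ^ M) (G₂ a)) (-(eval (fun i => x i ^ M) (G₁ a))) (by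
    funext b
    show eval (fun i => x i ^ M) (G₂ a) * eval (fun i => x i ^ M) (G₁ b) +
      -(eval (fun i => x i ^ M) (G₁ a)) * eval (fun i => x i ^ M) (G₂ b) = 0
    rw [mul_comm (eval (fun i => x i ^ M) (G₂ a)), ← hdep a b]
    ring)
  exact ha (neg_eq_zero.1 this.2)

end Pool.Agent.T6.H17.PB
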